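import Pool.Agent.Q72.EL.Stm2

/-! # Project EL, jobs LINH and FAME -/

set_option autoImplicit false

namespace Pool.Agent.Q285.EL

open MvPolynomial Filter Topology Metric
open Pool.Agent.Q72 Pool.Agent.Q72.EL

section linh

variable {n c : ℕ}

/-- linear forms -/
noncomputable def lf (q : Fin n → ℂ) : MvPolynomial (Fin n) ℂ := ∑ l, C (q l) * X l

theorem lf_hom (q : Fin n → ℂ) : (lf q).IsHomogeneous 1 :=
  IsHomogeneous.sum _ _ _ fun _ _ => isHomogeneous_C_mul_X _ _

theorem coeff_lf (q : Fin n → ℂ) (l : Fin n) : coeff (Finsupp.single l 1) (lf q) = q l := by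
  classical
  unfold lf
  rw [coeff_sum, Finset.sum_eq_single l]
  · rw [coeff_C_mul, coeff_X, if_pos rfl, mul_one]
  · intro b _ hb
    rw [coeff_C_mul, coeff_X]
    rw [if_neg]
    · simp
    · intro h
      exact hb (Finsupp.single_left_injective one_ne_zero h)
  · intro h
    exact absurd (Finset.mem_univ l) h

theorem top_lf (q : Fin n → ℂ) (d : ℂ) {l : Fin n} (hl : q l ≠ 0) : top (lf q - C d) = lf q := by
  classical
  have hdeg : (lf q - C d).totalDegree = 1 := by
    apply le_antisymm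
    · refine (totalDegree_sub _ _).trans (max_le ?_ ?_)
      · exact (lf_hom q).totalDegree_le
      · rw [totalDegree_C]
        exact Nat.zero_le _
    · have h1 : coeff (Finsupp.single l 1) (lf q - C d) = q l := by
        rw [coeff_sub, coeff_lf, coeff_C, if_neg, sub_zero]
        intro h
        have := DFunLike.congr_fun h l
        simp at this
      have h2 : Finsupp.single l 1 ∈ (lf q - C d).support := by
        rw [mem_support_iff, h1]
        exact hl
      have h3 := le_totalDegree h2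
      rw [Finsupp.sum_single_index rfl] at h3
      exact h3
  unfold top
  rw [hdeg, map_sub, homogeneousComponent_of_mem (lf_hom q), if_pos rfl,
    homogeneousComponent_of_mem (isHomogeneous_C (Fin n) d), if_neg one_ne_zero, sub_zero]

theorem exists_sol {ι : Type} [Fintype ι] (v : ι → Fin n → ℝ) (hv : LinearIndependent ℝ v) (s : ι → ℝ) :
    ∃ κ : Fin n → ℝ, ∀ i, ∑ l, v i l * κ l = s i := by
  classical
  have h1 : (Matrix.of v).rank = Fintype.card ι := LinearIndependent.rank_matrix hv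
  have h2 : LinearMap.range (Matrix.of v).mulVecLin = ⊤ := by
    apply Submodule.eq_top_of_finrank_eq
    rw [Module.finrank_fintype_fun_eq_card, ← h1]
    rfl
  obtain ⟨κ, hκ⟩ := LinearMap.range_eq_top.1 h2 s
  refine ⟨κ, fun i => ?_⟩
  have h3 := congrFun hκ i
  exact h3

theorem linh : S_linh := by
  classical
  intro n c q d hq hdet a ha lam ε hε
  refine ⟨lam, fun j => by rw [sub_self, abs_zero]; exact hε, ?_⟩
  -- the real solution
  set s : Fin c → ℂ := fun j => Complex.I * ∑ l, q j l * ∑ k, (lam k : ℂ) * ((a l k : ℚ) : ℂ) with hs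
  obtain ⟨κ, hκ⟩ := exists_sol _ hq (Sum.elim (fun j => (s j).re) (fun j => (s j).im))
  have hκ' : ∀ j, ∑ l, q j l * (κ l : ℂ) = s j := by
    intro j
    apply Complex.ext
    · rw [Complex.re_sum]
      have h1 := hκ (Sum.inl j)
      simp only [Sum.elim_inl] at h1
      rw [← h1]
      refine Finset.sum_congr rfl fun l _ => ?_
      simp
    · rw [Complex.im_sum]
      have h1 := hκ (Sum.inr j)
      simp only [Sum.elim_inr] at h1
      rw [← h1]
      refine Finset.sum_congr rfl fun l _ => ?_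
      simp
  have hne : ∀ j, ∃ l, q j l ≠ 0 := by
    intro j
    by_contra h
    push Not at h
    apply hq.ne_zero (Sum.inl j)
    funext l
    simp [h l]
  have htop : ∀ j, top (∑ l, C (q j l) * X l - C (d j)) = lf (q j) := by
    intro j
    obtain ⟨l, hl⟩ := hne j
    exact top_lf (q j) (d j) hl
  refine ⟨κ, fun j => ∑ l, C (q j l) * X l - C (d j), 1, fun j => Ideal.subset_span ⟨j, rfl⟩,
    fun g hg => by rw [one_mul]; exact hg, ?_, ?_, ?_⟩
  · intro j
    rw [htop]
    unfold lf
    rw [map_sum]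
    simp only [map_mul, eval_C, eval_X]
    have h1 : ∑ l, q j l * (∑ k, (lam k : ℂ) * ((a l k : ℚ) : ℂ) + Complex.I * (κ l : ℂ)) =
        ∑ l, q j l * ∑ k, (lam k : ℂ) * ((a l k : ℚ) : ℂ) + Complex.I * ∑ l, q j l * (κ l : ℂ) := by
      rw [Finset.mul_sum, ← Finset.sum_add_distrib]
      refine Finset.sum_congr rfl fun l _ => ?_
      ring
    rw [h1, hκ', hs]
    rw [← mul_assoc, Complex.I_mul_I]
    ring
  · have h1 := hdet a ha
    have e : (Matrix.of fun j k : Fin c => ∑ l, ((a l k : ℚ) : ℂ) *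
        eval (fun l => ∑ j, (lam j : ℂ) * ((a l j : ℚ) : ℂ) + Complex.I * (κ l : ℂ))
          (pderiv l (top (∑ l, C (q j l) * X l - C (d j))))) =
        Matrix.of fun j k : Fin c => ∑ l, q j l * ((a l k : ℚ) : ℂ) := by
      ext j k
      rw [Matrix.of_apply, Matrix.of_apply]
      refine Finset.sum_congr rfl fun l _ => ?_
      rw [htop]
      have h2 : pderiv l (lf (q j)) = C (q j l) := by
        unfold lf
        rw [map_sum, Finset.sum_eq_single l]
        · rw [pderiv_C_mul, pderiv_X_self, mul_one]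
        · intro b _ hb
          rw [pderiv_C_mul, pderiv_X_of_ne hb, mul_zero]
        · intro h
          exact absurd (Finset.mem_univ l) h
      rw [h2, eval_C, mul_comm]
    rw [e]
    exact h1
  · have h1 : top (1 : MvPolynomial (Fin n) ℂ) = 1 := by
      unfold top
      rw [totalDegree_one, homogeneousComponent_zero]
      simp
    rw [h1, map_one]
    exact one_ne_zero

end linh

section fame

/-- polynomials with entire coefficients -/
def Ent {σ : Type} (φ : ℂ → MvPolynomial σ ℂ) : Prop :=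
  ∃ (ι : Type) (_ : Fintype ι) (f : ι → ℂ → ℂ) (a : ι → MvPolynomial σ ℂ),
    (∀ k, Differentiable ℂ (f k)) ∧ ∀ s, φ s = ∑ k, C (f k s) * a k

namespace Ent

variable {σ : Type} {φ ψ : ℂ → MvPolynomial σ ℂ}

theorem add (h : Ent φ) (h' : Ent ψ) : Ent (fun s => φ s + ψ s) := by
  obtain ⟨ι, _, f, a, hf, ha⟩ := h
  obtain ⟨ι', _, f', a', hf', ha'⟩ := h'
  refine ⟨ι ⊕ ι', inferInstance, Sum.elim f f', Sum.elim a a', ?_, ?_⟩
  · rintro (k | k)
    · exact hf k
    · exact hf' k
  · intro s
    simp only [ha, ha', Fintype.sum_sum_type, Sum.elim_inl, Sum.elim_inr]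

theorem const (a : MvPolynomial σ ℂ) : Ent (fun _ => a) :=
  ⟨Unit, inferInstance, fun _ _ => 1, fun _ => a, fun _ => differentiable_const _, fun s => by simp⟩

theorem mul (h : Ent φ) (h' : Ent ψ) : Ent (fun s => φ s * ψ s) := by
  obtain ⟨ι, _, f, a, hf, ha⟩ := h
  obtain ⟨ι', _, f', a', hf', ha'⟩ := h'
  refine ⟨ι × ι', inferInstance, fun k s => f k.1 s * f' k.2 s, fun k => a k.1 * a' k.2, ?_, ?_⟩
  · rintro ⟨k, k'⟩
    exact (hf k).mul (hf' k')
  · intro s
    simp only [ha, ha', Fintype.sum_prod_type, Finset.sum_mul_sum]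
    refine Finset.sum_congr rfl fun k _ => Finset.sum_congr rfl fun k' _ => ?_
    rw [C_mul]; ring

theorem sub (h : Ent φ) (h' : Ent ψ) : Ent (fun s => φ s - ψ s) := by
  have h1 := h.add ((const (-1)).mul h')
  have e : (fun s => φ s - ψ s) = fun s => φ s + -1 * ψ s := by
    funext s
    ring
  rw [e]
  exact h1

theorem sum {ι : Type} (S : Finset ι) {Φ : ι → ℂ → MvPolynomial σ ℂ} (h : ∀ i, Ent (Φ i)) :
    Ent (fun s => ∑ i ∈ S, Φ i s) := by
  classical
  induction S using Finset.induction_on with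
  | empty => simpa using const (0 : MvPolynomial σ ℂ)
  | insert i S hi ih =>
    simp only [Finset.sum_insert hi]
    exact (h i).add ih

theorem prod {ι : Type} (S : Finset ι) {Φ : ι → ℂ → MvPolynomial σ ℂ} (h : ∀ i, Ent (Φ i)) :
    Ent (fun s => ∏ i ∈ S, Φ i s) := by
  classical
  induction S using Finset.induction_on with
  | empty => simpa using const (1 : MvPolynomial σ ℂ)
  | insert i S hi ih =>
    simp only [Finset.prod_insert hi]
    exact (h i).mul ih

theorem pderiv (h : Ent φ) (i : σ) : Ent (fun s => MvPolynomial.pderiv i (φ s)) := by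
  obtain ⟨ι, _, f, a, hf, ha⟩ := h
  refine ⟨ι, inferInstance, f, fun k => MvPolynomial.pderiv i (a k), hf, fun s => ?_⟩
  simp only [ha, map_sum]
  exact Finset.sum_congr rfl fun k _ => by rw [pderiv_C_mul]

theorem det {c : ℕ} {Φ : Fin c → Fin c → ℂ → MvPolynomial σ ℂ} (h : ∀ j k, Ent (Φ j k)) :
    Ent (fun s => Matrix.det (Matrix.of fun j k : Fin c => Φ j k s)) := by
  simp only [Matrix.det_apply', Matrix.of_apply]
  exact sum _ fun π => (const _).mul (prod _ fun i => h _ _)

end Ent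

theorem zeros_countable {f : ℂ → ℂ} (hf : Differentiable ℂ f) {z0 : ℂ} (hne : f z0 ≠ 0) :
    {z | f z = 0}.Countable := by
  have hh : AnalyticOnNhd ℂ f Set.univ := hf.differentiableOn.analyticOnNhd isOpen_univ
  rcases hh.eqOn_zero_or_eventually_ne_zero_of_preconnected isPreconnected_univ with h0 | h0
  · exact absurd (h0 (Set.mem_univ z0)) hne
  · have h1 : ({z | f z ≠ 0}ᶜ ∩ Set.univ).Countable := by
      apply (HereditarilyLindelofSpace.isLindelof _).countable_of_isDiscrete
        (isDiscrete_of_codiscreteWithin _)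
      have : {z | f z ≠ 0} ∈ codiscreteWithin (Set.univ : Set ℂ) := h0
      refine mem_of_superset (inter_mem this (Filter.self_mem_codiscreteWithin Set.univ)) ?_
      intro z hz hz2
      exact hz2 hz.1
    refine h1.mono ?_
    intro z hz
    exact ⟨by simpa using hz, Set.mem_univ z⟩

theorem cf_sum {n c : ℕ} {ι : Type} (S : Finset ι) (r : ι → ℂ) (a : ι → MvPolynomial (Fin c ⊕ Fin n) ℂ)
    (α : Fin c →₀ ℕ) : cf (∑ k ∈ S, C (r k) * a k) α = ∑ k ∈ S, C (r k) * cf (a k) α := by
  unfold cf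
  rw [map_sum, coeff_sum]
  refine Finset.sum_congr rfl fun k _ => ?_
  rw [map_mul, sumAlgEquiv_C_inl, coeff_C_mul]

theorem nz_countable {n c : ℕ} {φ : ℂ → MvPolynomial (Fin c ⊕ Fin n) ℂ} (h : Ent φ)
    (I : Ideal (MvPolynomial (Fin n) ℂ)) {s0 : ℂ} (h0 : NZ I (φ s0)) : {s | ¬ NZ I (φ s)}.Countable := by
  obtain ⟨α, hα⟩ := h0
  obtain ⟨ι, _, f, a, hf, ha⟩ := h
  have h1 : (Ideal.Quotient.mkₐ ℂ I) (cf (φ s0) α) ≠ 0 := by
    intro hz
    exact hα (Ideal.Quotient.eq_zero_iff_mem.1 hz)
  have h2 : ∃ L : Module.Dual ℂ (MvPolynomial (Fin n) ℂ ⧸ I), L ((Ideal.Quotient.mkₐ ℂ I) (cf (φ s0) α)) ≠ 0 := by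
    by_contra hcon
    push Not at hcon
    exact h1 ((Module.forall_dual_apply_eq_zero_iff ℂ _).1 hcon)
  obtain ⟨L, hL⟩ := h2
  have h3 : ∀ s, L ((Ideal.Quotient.mkₐ ℂ I) (cf (φ s) α)) =
      ∑ k, f k s * L ((Ideal.Quotient.mkₐ ℂ I) (cf (a k) α)) := by
    intro s
    rw [ha, cf_sum, map_sum, map_sum]
    refine Finset.sum_congr rfl fun k _ => ?_
    rw [← smul_eq_C_mul, map_smul, map_smul, smul_eq_mul]
  have hd : Differentiable ℂ fun s => L ((Ideal.Quotient.mkₐ ℂ I) (cf (φ s) α)) := by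
    simp only [h3]
    exact Differentiable.fun_sum fun k _ => (hf k).mul_const _
  refine (zeros_countable hd hL).mono ?_
  intro s hs
  have h4 : (Ideal.Quotient.mkₐ ℂ I) (cf (φ s) α) = 0 := by
    refine Ideal.Quotient.eq_zero_iff_mem.2 ?_
    by_contra h5
    exact hs ⟨α, h5⟩
  show L _ = 0
  rw [h4, map_zero]

theorem fame (hfam : S_fam) : S_fame := by
  intro n c I hI htr hH K f g hf hg a b A B hA hB s0 hA0 hB0 i hdet
  have eA : ∀ j, Ent (A j) := fun j => ⟨Fin K, inferInstance, f j, a j, hf j, hA j⟩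
  have eB : ∀ j, Ent (B j) := fun j => ⟨Fin K, inferInstance, g j, b j, hg j, hB j⟩
  have eD : Ent fun s => Matrix.det (Matrix.of fun j k : Fin c => pderiv (Sum.inl k) (A (i j) s) * B (i j) s -
      A (i j) s * pderiv (Sum.inl k) (B (i j) s)) :=
    Ent.det fun j k => (((eA _).pderiv _).mul (eB _)).sub ((eA _).mul ((eB _).pderiv _))
  refine ⟨(⋃ j, {s | ¬ NZ I (A j s)}) ∪ (⋃ j, {s | ¬ NZ I (B j s)}) ∪ {s | ¬ NZ I (Matrix.det
    (Matrix.of fun j k : Fin c => pderiv (Sum.inl k) (A (i j) s) * B (i j) s -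
      A (i j) s * pderiv (Sum.inl k) (B (i j) s)))}, ?_, ?_⟩
  · refine Set.Countable.union (Set.Countable.union ?_ ?_) (nz_countable eD I hdet)
    · exact Set.countable_iUnion fun j => nz_countable (eA j) I (hA0 j)
    · exact Set.countable_iUnion fun j => nz_countable (eB j) I (hB0 j)
  · intro s hs G hG
    have h1 : ∀ j, NZ I (A j s) := by
      intro j
      by_contra h
      exact hs (Or.inl (Or.inl (Set.mem_iUnion.2 ⟨j, h⟩)))
    have h2 : ∀ j, NZ I (B j s) := by
      intro j
      by_contra h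
      exact hs (Or.inl (Or.inr (Set.mem_iUnion.2 ⟨j, h⟩)))
    have h3 : NZ I (Matrix.det (Matrix.of fun j k : Fin c => pderiv (Sum.inl k) (A (i j) s) * B (i j) s -
        A (i j) s * pderiv (Sum.inl k) (B (i j) s))) := by
      by_contra h
      exact hs (Or.inr h)
    obtain ⟨x, t, hx, hGx, hj⟩ := hfam n c I hI htr hH (fun j => A j s) (fun j => B j s) h1 h2 i h3 G hG
    refine ⟨x, t, hx, hGx, fun j => ⟨(hj j).1, ?_⟩⟩
    rw [eq_div_iff (hj j).1]
    exact (hj j).2

end fame

end Pool.Agent.Q285.EL
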